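import Mathlib
import Pool.Agent.H.MP_121ed1_lc.Flow
import Pool.Agent.H.MP_121ed1_lc.Gauss

namespace Pool.Agent.Results.MP_121ed1_lc.Yes

open Finset Relation MeasureTheory ProbabilityTheory Pool.Agent.H121ed1
open Classical

variable {V : Type} [Fintype V]

/-- sources: vertices of in-degree 0. -/
def Src (E : V → V → Prop) (v : V) : Prop := ∀ u, ¬ E u v

/-- secrecy closure of the wiretapped set `W`. -/
def Scl (E W : V → V → Prop) (u v : V) : Prop :=
  W u v ∨ (E u v ∧ ¬ ∃ s, Src E s ∧ ReflTransGen (fun a b => E a b ∧ ¬ W a b) s u)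

/-- condition (C): every source is joined to `d` by an undirected path in `E` minus the closure. -/
def CondC (E W : V → V → Prop) (d : V) : Prop :=
  ∀ s, Src E s →
    ReflTransGen (fun a b => (E a b ∧ ¬ Scl E W a b) ∨ (E b a ∧ ¬ Scl E W b a)) s d

/-- `Y` is the family of (real) signals of the linear scheme with coefficients `α`, `γ`. -/
def Signals {Ω : Type} (E : V → V → Prop) (α : V → V → V → ℝ) (γ : V → V → ℝ)
    (X : {s // Src E s} → Ω → ℝ) (Y : V → V → Ω → ℝ) : Prop :=
  ∀ v w, E v w → ∀ ω, Y v w ω =
    (∑ u with E u v, α u v w * Y u v ω) + if h : Src E v then γ v w * X ⟨v, h⟩ ω else 0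

lemma wfE {E : V → V → Prop} (hac : ∀ v, ¬ TransGen E v v) : WellFounded E := by
  have : Std.Irrefl (TransGen E) := ⟨hac⟩
  exact Subrelation.wf (fun h => TransGen.single h) (Finite.wellFounded_of_trans_of_irrefl _)

lemma exists_rec {E : V → V → Prop} (wf : WellFounded E) (α : V → V → V → ℝ) (g : V → V → ℝ) :
    ∃ c : V → V → ℝ, ∀ v w, c v w = (∑ u with E u v, α u v w * c u v) + g v w := by
  let F : (v : V) → ((u : V) → E u v → V → ℝ) → V → ℝ := fun v ih w =>
    (∑ u, if h : E u v then α u v w * ih u h v else 0) + g v w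
  refine ⟨wf.fix F, fun v w => ?_⟩
  rw [wf.fix_eq]
  simp only [F, Finset.sum_filter]
  congr 1

lemma uniq_rec {E : V → V → Prop} (wf : WellFounded E) (α : V → V → V → ℝ) (g : V → V → ℝ)
    (c c' : V → V → ℝ)
    (h : ∀ v w, E v w → c v w = (∑ u with E u v, α u v w * c u v) + g v w)
    (h' : ∀ v w, E v w → c' v w = (∑ u with E u v, α u v w * c' u v) + g v w) :
    ∀ v w, E v w → c v w = c' v w := by
  intro v
  induction v using wf.induction with
  | _ v ih =>
    intro w hw
    rw [h v w hw, h' v w hw]
    congr 1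
    refine Finset.sum_congr rfl fun u hu => ?_
    have hu' : E u v := by simpa using hu
    rw [ih u hu' v hu']

lemma coeffs (E W : V → V → Prop) (d : V) (hsink : ∀ v, (∀ w, ¬ E v w) ↔ v = d)
    (hC : CondC E W d) :
    ∃ (m β : V → V → ℝ) (α : V → V → V → ℝ),
      (∀ v w, ¬ E v w → m v w = 0 ∧ β v w = 0) ∧ (∀ v w, W v w → m v w = 0) ∧
      (∀ v, v ≠ d → Src E v → ∑ w, m v w * β v w = 1) ∧
      (∀ v, v ≠ d → ¬ Src E v → (∀ w, ∑ u, α u v w * m u v = m v w) ∧
        ∀ u, ∑ w, α u v w * β v w = β u v) := by
  have hpath : ∀ s u, Src E s → ReflTransGen (fun a b => E a b ∧ ¬ W a b) s u →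
      ReflTransGen (fun a b => E a b ∧ ¬ Scl E W a b) s u := by
    intro s u hs h
    induction h with
    | refl => exact ReflTransGen.refl
    | tail h1 h2 ih =>
      refine ih.tail ⟨h2.1, ?_⟩
      rintro (h3 | h3)
      · exact h2.2 h3
      · exact h3.2 ⟨s, hs, h1⟩
  obtain ⟨φ, f1, f2, f3⟩ := rooted_flow (fun a b => E a b ∧ ¬ Scl E W a b) (Src E) d (by
    rintro u v ⟨h1, h2⟩
    by_contra hc
    apply h2
    right
    refine ⟨h1, ?_⟩
    rintro ⟨s, hs, hp⟩
    exact hc ⟨s, hs, hpath s u hs hp⟩) hC
  set m : V → V → ℝ := fun v w => if φ v w = 0 then 0 else 1 with hm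
  set β : V → V → ℝ := fun v w => if E v w then (if φ v w = 0 then 1 else φ v w) else 0 with hβ
  have hz : ∀ v w, ¬ E v w → φ v w = 0 := fun v w h => by
    by_contra h'; exact h (f1 v w h').1
  have hmβ : ∀ v w, m v w * β v w = φ v w := by
    intro v w
    by_cases h : φ v w = 0
    · simp [hm, h]
    · simp [hm, hβ, h, (f1 v w h).1]
  have hα : ∀ v, ∃ a : V → V → ℝ, v ≠ d → ¬ Src E v → (∀ w, ∑ u, a u w * m u v = m v w) ∧
      ∀ u, ∑ w, a u w * β v w = β u v := by
    intro v
    by_cases hv : v ≠ d ∧ ¬ Src E v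
    · obtain ⟨a, ha⟩ := exists_alpha (fun u => m u v) (fun u => β u v) (m v) (β v) (by
        simp only [hmβ]
        have := f2 v hv.1
        rw [if_neg hv.2, dv] at this
        linarith) (by
        have : ¬ ∀ w, ¬ E v w := fun h => hv.1 ((hsink v).1 h)
        push Not at this
        obtain ⟨w, hw⟩ := this
        refine ⟨w, ?_⟩
        by_cases h : φ v w = 0
        · simp [hβ, hw, h]
        · simp [hβ, hw, h]) (by
        intro h w
        by_contra h'
        have h1 : φ v w ≠ 0 := fun e => h' (by simp [hm, e])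
        rcases f3 v w h1 with h2 | ⟨u, hu⟩
        · exact hv.2 h2
        · have := h u
          simp [hm, hu] at this)
      exact ⟨a, fun _ _ => ha⟩
    · exact ⟨0, fun h1 h2 => absurd ⟨h1, h2⟩ hv⟩
  choose a ha using hα
  refine ⟨m, β, fun u v w => a v u w, ?_, ?_, ?_, ha⟩
  · intro v w h
    simp [hm, hβ, h, hz v w h]
  · intro v w h
    have : φ v w = 0 := by
      by_contra h'; exact (f1 v w h').2 (Or.inl h)
    simp [hm, this]
  · intro v hv hs
    simp only [hmβ]
    have := f2 v hv
    rw [if_pos hs, dv] at this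
    have h0 : ∑ u, φ u v = 0 := Finset.sum_eq_zero fun u _ => hz u v (hs u)
    linarith

theorem result (V : Type) [Fintype V] (E W : V → V → Prop) (d : V)
    (hac : ∀ v, ¬ TransGen E v v) (hsink : ∀ v, (∀ w, ¬ E v w) ↔ v = d) (hd : ¬ Src E d)
    (hW : ∀ u v, W u v → E u v) (hC : CondC E W d) :
    ∃ (α : V → V → V → ℝ) (γ : V → V → ℝ) (δ : V → ℝ),
      ∀ (Ω : Type) [MeasurableSpace Ω] (P : Measure Ω) (X : {s // Src E s} → Ω → ℝ),
        (∀ s, HasLaw (X s) (gaussianReal 0 1) P) → iIndepFun X P →
        (∃ Y, Signals E α γ X Y) ∧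
        ∀ Y, Signals E α γ X Y →
          (∀ ω, ∑ u with E u d, δ u * Y u d ω = ∑ s, X s ω) ∧
          IndepFun (fun ω (e : {e : V × V // W e.1 e.2}) => Y e.1.1 e.1.2 ω)
            (fun ω => ∑ s, X s ω) P := by
  have wf := wfE hac
  obtain ⟨m, β, α, h1, h2, h3, h4⟩ := coeffs E W d hsink hC
  refine ⟨α, m, fun u => β u d, ?_⟩
  intro Ω _ P X hX hi
  choose c hc using fun s : {s // Src E s} =>
    exists_rec wf α (fun v w => if v = s.1 then m v w else 0)
  have hne : ∀ v w, E v w → v ≠ d := fun v w h e => (hsink v).2 e w h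
  have hsum : ∀ (x : {s // Src E s} → ℝ) v w, ∑ s, c s v w * x s =
      (∑ u with E u v, α u v w * ∑ s, c s u v * x s) +
        if h : Src E v then m v w * x ⟨v, h⟩ else 0 := by
    intro x v w
    have : ∀ s, c s v w * x s = (∑ u with E u v, α u v w * (c s u v * x s)) +
        (if v = s.1 then m v w else 0) * x s := by
      intro s
      rw [hc s v w, add_mul, Finset.sum_mul]
      simp only [mul_assoc]
    simp only [this, Finset.sum_add_distrib, Finset.mul_sum]
    rw [Finset.sum_comm]
    congr 1
    by_cases h : Src E v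
    · rw [dif_pos h, Finset.sum_eq_single ⟨v, h⟩]
      · simp
      · intro s _ hs
        rw [if_neg, zero_mul]
        intro e; exact hs (Subtype.ext e.symm)
      · simp
    · rw [dif_neg h]
      refine Finset.sum_eq_zero fun s _ => ?_
      rw [if_neg, zero_mul]
      intro e; exact h (e ▸ s.2)
  have hmass : ∀ v w, E v w → ∑ s, c s v w * 1 = m v w := by
    refine uniq_rec wf α (fun v w => if h : Src E v then m v w * 1 else 0) _ m
      (fun v w _ => hsum (fun _ => 1) v w) ?_
    intro v w hvw
    by_cases h : Src E v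
    · rw [dif_pos h, Finset.sum_eq_zero, zero_add, mul_one]
      intro u hu
      exact absurd (by simpa using hu) (h u)
    · rw [dif_neg h, add_zero, ← (h4 v (hne v w hvw) h).1 w, Finset.sum_filter]
      refine Finset.sum_congr rfl fun u _ => ?_
      by_cases e : E u v
      · simp [e]
      · simp [e, (h1 u v e).1]
  have hone : ∀ s, ∑ u, β u d * c s u d = 1 := by
    intro s
    have hsd : s.1 ≠ d := fun e => hd (e ▸ s.2)
    have key : ∀ v, dv (fun a b => β a b * c s a b) v =
        if v = d then -∑ u, β u d * c s u d else if v = s.1 then 1 else 0 := by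
      intro v
      unfold dv
      by_cases hv : v = d
      · subst hv
        rw [if_pos rfl, Finset.sum_eq_zero (s := univ) (f := fun w => β v w * c s v w), zero_sub]
        intro w _
        rw [(h1 v w ((hsink v).2 rfl w)).2, zero_mul]
      · rw [if_neg hv]
        by_cases h : Src E v
        · have e1 : ∑ u, β u v * c s u v = 0 :=
            Finset.sum_eq_zero fun u _ => by rw [(h1 u v (h u)).2, zero_mul]
          have e2 : ∀ w, c s v w = if v = s.1 then m v w else 0 := by
            intro w
            rw [hc s v w, Finset.sum_eq_zero, zero_add]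
            intro u hu
            exact absurd (by simpa using hu) (h u)
          rw [e1, sub_zero]
          simp only [e2]
          by_cases e : v = s.1
          · simp only [if_pos e]
            rw [← h3 v hv h]
            exact Finset.sum_congr rfl fun w _ => mul_comm _ _
          · simp [e]
        · have e : v ≠ s.1 := fun e => h (e ▸ s.2)
          rw [if_neg e, sub_eq_zero]
          have e2 : ∀ w, β v w * c s v w =
              ∑ u, (if E u v then c s u v else 0) * (α u v w * β v w) := by
            intro w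
            rw [hc s v w, if_neg e, add_zero, Finset.sum_filter, Finset.mul_sum]
            refine Finset.sum_congr rfl fun u _ => ?_
            split_ifs <;> ring
          simp only [e2]
          rw [Finset.sum_comm]
          refine Finset.sum_congr rfl fun u _ => ?_
          rw [← Finset.mul_sum, (h4 v hv h).2 u]
          by_cases e3 : E u v
          · simp [e3, mul_comm]
          · simp [e3, (h1 u v e3).2]
    have t := sum_dv (fun a b => β a b * c s a b)
    simp only [key] at t
    have t2 : ∀ v, (if v = d then -∑ u, β u d * c s u d else if v = s.1 then (1 : ℝ) else 0) =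
        (if v = d then -∑ u, β u d * c s u d else 0) + if v = s.1 then (1 : ℝ) else 0 := by
      intro v
      by_cases hv : v = d
      · simp [hv, Ne.symm hsd]
      · simp [hv]
    simp only [t2, Finset.sum_add_distrib, Finset.sum_ite_eq', Finset.mem_univ, if_true] at t
    linarith
  refine ⟨⟨fun v w ω => ∑ s, c s v w * X s ω, fun v w _ ω => hsum (fun s => X s ω) v w⟩, ?_⟩
  intro Y hY
  have hYc : ∀ ω v w, E v w → Y v w ω = ∑ s, c s v w * X s ω := fun ω =>
    uniq_rec wf α (fun v w => if h : Src E v then m v w * X ⟨v, h⟩ ω else 0)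
      (fun v w => Y v w ω) _ (fun v w h => hY v w h ω) (fun v w _ => hsum (fun s => X s ω) v w)
  constructor
  · intro ω
    have : ∀ u, (if E u d then β u d * Y u d ω else 0) = ∑ s, β u d * c s u d * X s ω := by
      intro u
      by_cases e : E u d
      · rw [if_pos e, hYc ω u d e, Finset.mul_sum]
        simp only [mul_assoc]
      · simp [e, (h1 u d e).2]
    rw [Finset.sum_filter]
    simp only [this]
    rw [Finset.sum_comm]
    refine Finset.sum_congr rfl fun s _ => ?_
    rw [← Finset.sum_mul, hone, one_mul]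
  · have := gauss_indep P X hX hi (fun (e : {e : V × V // W e.1 e.2}) s => c s e.1.1 e.1.2) (by
      intro e
      have := hmass _ _ (hW _ _ e.2)
      simp only [mul_one] at this
      rw [this, h2 _ _ e.2])
    have e : (fun ω (e : {e : V × V // W e.1 e.2}) => Y e.1.1 e.1.2 ω) =
        fun ω e => ∑ s, c s e.1.1 e.1.2 * X s ω := by
      funext ω e
      exact hYc ω _ _ (hW _ _ e.2)
    rw [e]
    exact this

end Pool.Agent.Results.MP_121ed1_lc.Yes
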